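import Pool.Agent.Helper3.AK.Goals3

namespace Pool.Agent.Helper60.AK.LZ

open Equiv Pool.Agent.Helper3.AK

variable {n r k : ℕ}

theorem Avg_shift (κ : Perm (Fin n) → ℝ) (z : Perm (Fin n)) :
    (Avg (fun g => κ (g * z⁻¹)) : Fn n r →ₗ[ℝ] Fn n r) = Act z * Avg κ := by
  rw [Avg, Avg, Finset.mul_sum]
  refine Fintype.sum_equiv (Equiv.mulRight z⁻¹) _ _ fun g => ?_
  rw [Equiv.coe_mulRight, mul_smul_comm, ← Act_mul, inv_mul_cancel_right]

theorem Avg_lin (κ : Perm (Fin n) → ℝ) (a b : ℝ) (μ : Fin k → Perm (Fin n) → ℝ) :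
    (Avg (fun g => a * κ g + b * ∑ i, μ i g) : Fn n r →ₗ[ℝ] Fn n r) =
      a • Avg κ + b • ∑ i, Avg (μ i) := by
  simp only [Avg, add_smul, Finset.sum_add_distrib, mul_smul, Finset.sum_smul, Finset.smul_sum]
  congr 1
  rw [Finset.sum_comm]

theorem Avg_add (κ μ : Perm (Fin n) → ℝ) :
    (Avg (fun g => κ g + μ g) : Fn n r →ₗ[ℝ] Fn n r) = Avg κ + Avg μ := by
  simp only [Avg, add_smul, Finset.sum_add_distrib]

theorem Avg_succ (z : Fin k → Alt n) (m : ℕ) (hk : 1 ≤ k) :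
    (Avg (lazyLaw z (m + 1)) : Fn n r →ₗ[ℝ] Fn n r) = Lz z * Avg (lazyLaw z m) := by
  have h1 : lazyLaw z (m + 1) = fun g => (1 / 2) * lazyLaw z m g + (4 * (k : ℝ))⁻¹ *
      ∑ i, (fun i g => lazyLaw z m (g * (z i : Perm (Fin n))⁻¹) +
        lazyLaw z m (g * (z i : Perm (Fin n)))) i g := rfl
  have h2 : ∀ i, (Avg (fun g => lazyLaw z m (g * (z i : Perm (Fin n))⁻¹) +
      lazyLaw z m (g * (z i : Perm (Fin n)))) : Fn n r →ₗ[ℝ] Fn n r) =
      (Act (z i : Perm (Fin n)) + Act ((z i : Perm (Fin n))⁻¹)) * Avg (lazyLaw z m) := by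
    intro i
    have h3 := Avg_shift (r := r) (lazyLaw z m) ((z i : Perm (Fin n))⁻¹)
    rw [inv_inv] at h3
    rw [Avg_add, Avg_shift, h3, add_mul]
  rw [h1, Avg_lin, Finset.sum_congr rfl fun i _ => h2 i, Lz, Wk, ← Finset.sum_mul, smul_mul_assoc,
    add_mul, smul_mul_assoc, smul_add, smul_smul]
  have h4 : (LinearMap.id : Fn n r →ₗ[ℝ] Fn n r) = 1 := rfl
  rw [h4, one_mul]
  congr 2
  have hk0 : (k : ℝ) ≠ 0 := by
    have : k ≠ 0 := by omega
    exact_mod_cast this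
  field_simp
  norm_num

theorem lazy_nonneg (z : Fin k → Alt n) (m : ℕ) : ∀ g, 0 ≤ lazyLaw z m g := by
  induction m with
  | zero =>
    intro g
    change (0 : ℝ) ≤ if g = 1 then 1 else 0
    split_ifs
    · exact zero_le_one
    · exact le_rfl
  | succ m ih =>
    intro g
    change (0 : ℝ) ≤ (1 / 2) * lazyLaw z m g + (4 * (k : ℝ))⁻¹ *
      ∑ i, (lazyLaw z m (g * (z i : Perm (Fin n))⁻¹) + lazyLaw z m (g * (z i : Perm (Fin n))))
    have h1 : 0 ≤ ∑ i, (lazyLaw z m (g * (z i : Perm (Fin n))⁻¹) +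
        lazyLaw z m (g * (z i : Perm (Fin n)))) :=
      Finset.sum_nonneg fun i _ => add_nonneg (ih _) (ih _)
    have h2 := ih g
    positivity

theorem sum_shift (κ : Perm (Fin n) → ℝ) (z : Perm (Fin n)) : ∑ g, κ (g * z) = ∑ g, κ g :=
  Fintype.sum_equiv (Equiv.mulRight z) _ _ fun _ => rfl

theorem lazy_sum (z : Fin k → Alt n) (m : ℕ) (hk : 1 ≤ k) : ∑ g, lazyLaw z m g = 1 := by
  induction m with
  | zero =>
    change ∑ g : Perm (Fin n), (if g = 1 then (1 : ℝ) else 0) = 1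
    rw [Finset.sum_ite_eq' Finset.univ (1 : Perm (Fin n)), if_pos (Finset.mem_univ _)]
  | succ m ih =>
    change ∑ g, ((1 / 2) * lazyLaw z m g + (4 * (k : ℝ))⁻¹ *
      ∑ i, (lazyLaw z m (g * (z i : Perm (Fin n))⁻¹) + lazyLaw z m (g * (z i : Perm (Fin n))))) = 1
    rw [Finset.sum_add_distrib, ← Finset.mul_sum, ← Finset.mul_sum, Finset.sum_comm, ih]
    have h1 : ∀ i : Fin k, ∑ g, (lazyLaw z m (g * (z i : Perm (Fin n))⁻¹) +
        lazyLaw z m (g * (z i : Perm (Fin n)))) = 2 := by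
      intro i
      rw [Finset.sum_add_distrib, sum_shift, sum_shift, ih]
      norm_num
    rw [Finset.sum_congr rfl fun i _ => h1 i, Finset.sum_const, Finset.card_univ, Fintype.card_fin,
      nsmul_eq_mul]
    have hk0 : (k : ℝ) ≠ 0 := by
      have : k ≠ 0 := by omega
      exact_mod_cast this
    field_simp
    norm_num

theorem lz : S_LZ := by
  intro n k r m z hk
  refine ⟨?_, lazy_nonneg z m, lazy_sum z m hk⟩
  induction m with
  | zero =>
    rw [pow_zero]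
    have h1 : (Avg (lazyLaw z 0) : Fn n r →ₗ[ℝ] Fn n r) =
        ∑ g : Perm (Fin n), (if g = 1 then (1 : ℝ) else 0) • Act g := rfl
    rw [h1, Finset.sum_eq_single 1]
    · rw [if_pos rfl, one_smul, Act_one]
    · intro g _ hg
      rw [if_neg hg, zero_smul]
    · intro h
      exact absurd (Finset.mem_univ _) h
  | succ m ih =>
    rw [Avg_succ z m hk, ih, pow_succ']

end Pool.Agent.Helper60.AK.LZ
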