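import Pool.Agent.Helper6.AK.DGoals

namespace Pool.Agent.Helper60.AK.DESC

open Matrix Equiv Filter Topology Pool.Agent.Helper15.An Pool.Agent.Helper6.FixK
  Pool.Agent.Helper6.T5 Pool.Agent.Helper6.W Pool.Agent.Helper6.AK

theorem ev_large (a C : ℝ) (ha : 0 < a) : ∀ᶠ n : ℕ in atTop, C ≤ (n : ℝ) ^ a :=
  ((tendsto_rpow_atTop ha).comp tendsto_natCast_atTop_atTop).eventually_ge_atTop C

theorem thm (hstep : S_STEP) : S_DESC := by
  intro e he j
  induction j with
  | zero =>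
    intro _
    refine Eventually.of_forall fun n => ?_
    intro k x κ t ℓ _ _ c₀ hc₀ h1 h2
    refine ⟨c₀, hc₀.mono (by rw [pow_zero, one_mul]; omega), ?_, ?_⟩
    · have h3 : (0 : ℝ) ≤ (n : ℝ) ^ (1 - e) := Real.rpow_nonneg (Nat.cast_nonneg n) _
      have e1 : (1 : ℝ) - (((0 : ℕ) : ℝ) + 1) * e = 1 - e := by
        push_cast
        ring
      rw [e1]
      refine le_trans ?_ h1
      rw [zero_add, pow_one]
      linarith
    · have e1 : (1 : ℝ) - (((0 : ℕ) : ℝ) + 1) * e = 1 - e := by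
        push_cast
        ring
      rw [e1, pow_zero, one_mul]
      exact h2
  | succ j ih =>
    intro hj
    have hj1 : (0 : ℝ) < 1 - (((j : ℕ) : ℝ) + 2) * e := by
      have e1 : (1 : ℝ) - (((j + 1 : ℕ) : ℝ) + 1) * e = 1 - (((j : ℕ) : ℝ) + 2) * e := by
        push_cast
        ring
      rw [← e1]
      exact hj
    have hj0 : (0 : ℝ) < 1 - ((j : ℝ) + 1) * e := by nlinarith
    have hje : (0 : ℝ) < ((j : ℝ) + 1) * e := by positivity
    filter_upwards [ih hj0, ev_large _ (8 * 64 ^ (j + 1)) hj1, ev_large _ (320 * 120 ^ j) hje,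
      eventually_ge_atTop 10] with n hn hA hB hn10
    intro k x κ t ℓ hκ hκt c₀ hc₀ h1 h2
    obtain ⟨c, hc, h3, h4⟩ := hn k x κ t ℓ hκ hκt c₀ hc₀ h1 h2
    have hn0 : (0 : ℝ) < n := by
      have : (0 : ℕ) < n := by omega
      exact_mod_cast this
    set m := c.support.card with hm
    set m₀ := c₀.support.card with hm₀
    set a := (n : ℝ) ^ (1 - ((j : ℝ) + 1) * e) with ha
    set b := (n : ℝ) ^ (1 - e) with hb
    set d := (n : ℝ) ^ (1 - (((j : ℕ) : ℝ) + 2) * e) with hd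
    have ha0 : 0 < a := Real.rpow_pos_of_pos hn0 _
    have hb0 : 0 < b := Real.rpow_pos_of_pos hn0 _
    have hd0 : 0 < d := Real.rpow_pos_of_pos hn0 _
    have hab : a * b = n * d := by
      rw [ha, hb, hd, ← Real.rpow_add hn0]
      nth_rewrite 2 [← Real.rpow_one (n : ℝ)]
      rw [← Real.rpow_add hn0]
      congr 1
      ring
    have hna : (n : ℝ) ^ (((j : ℝ) + 1) * e) * a = n := by
      rw [ha, ← Real.rpow_add hn0]
      nth_rewrite 2 [← Real.rpow_one (n : ℝ)]
      congr 1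
      ring
    have hmm : a / 64 ^ (j + 1) * (b / 8) ≤ (m : ℝ) * m₀ :=
      mul_le_mul h3 h1 (by positivity) (Nat.cast_nonneg m)
    have hmm2 : (m : ℝ) * m₀ ≤ 120 ^ j * a * b :=
      mul_le_mul h4 h2 (Nat.cast_nonneg m₀) (by positivity)
    have e2 : a / 64 ^ (j + 1) * (b / 8) = n * (d / (8 * 64 ^ (j + 1))) := by
      rw [div_mul_div_comm, hab]
      ring
    rw [e2] at hmm
    have hstep1 : n ≤ m * m₀ := by
      have h5 : (1 : ℝ) ≤ d / (8 * 64 ^ (j + 1)) := by
        rw [le_div_iff₀ (by positivity), one_mul]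
        exact hA
      have h6 : (n : ℝ) ≤ (m : ℝ) * m₀ := by
        calc (n : ℝ) = n * 1 := (mul_one _).symm
          _ ≤ n * (d / (8 * 64 ^ (j + 1))) := mul_le_mul_of_nonneg_left h5 hn0.le
          _ ≤ _ := hmm
      exact_mod_cast h6
    have hstep2 : 320 * m ≤ n := by
      have h5 : (320 : ℝ) * m ≤ n := by
        calc (320 : ℝ) * m ≤ 320 * (120 ^ j * a) := by linarith
          _ = (320 * 120 ^ j) * a := by ring
          _ ≤ (n : ℝ) ^ (((j : ℝ) + 1) * e) * a := mul_le_mul_of_nonneg_right hB ha0.le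
          _ = n := hna
      exact_mod_cast h5
    obtain ⟨h, hh, h5, h6⟩ := hstep hn10 hκ c c₀ hstep1 hstep2
    set c' := c * (h * c₀ * h⁻¹) * c⁻¹ * (h * c₀ * h⁻¹)⁻¹ with hc'
    have hr := hκt h hh
    have hcon := (hr.mul hc₀).mul hr.inv
    have hw := ((hc.mul hcon).mul hc.inv).mul hcon.inv
    have e3 : (1 : ℝ) - (((j + 1 : ℕ) : ℝ) + 1) * e = 1 - (((j : ℕ) : ℝ) + 2) * e := by
      push_cast
      ring
    have h5' : (m : ℝ) * m₀ ≤ 8 * n * c'.support.card := by exact_mod_cast h5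
    have h6' : (n : ℝ) * c'.support.card ≤ 120 * (m * m₀) := by exact_mod_cast h6
    refine ⟨c', hw.mono ?_, ?_, ?_⟩
    · have h7 : 1 ≤ 4 ^ j := Nat.one_le_pow _ _ (by norm_num)
      have h8 : ℓ + 2 * t ≤ 4 ^ j * (ℓ + 2 * t) := Nat.le_mul_of_pos_left _ h7
      rw [pow_succ]
      nlinarith
    · rw [e3]
      rw [div_le_iff₀ (by positivity)]
      have h7 : (n : ℝ) * (d / (8 * 64 ^ (j + 1))) ≤ 8 * n * c'.support.card := hmm.trans h5'
      have h8 : d / (8 * 64 ^ (j + 1)) ≤ 8 * c'.support.card := by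
        have h9 : (n : ℝ) * (d / (8 * 64 ^ (j + 1))) ≤ n * (8 * c'.support.card) := by
          linarith
        exact le_of_mul_le_mul_left h9 hn0
      rw [div_le_iff₀ (by positivity)] at h8
      calc d ≤ 8 * (c'.support.card : ℝ) * (8 * 64 ^ (j + 1)) := h8
        _ = c'.support.card * 64 ^ (j + 1 + 1) := by ring
    · rw [e3]
      have h7 : (n : ℝ) * c'.support.card ≤ n * (120 ^ (j + 1) * d) := by
        calc (n : ℝ) * c'.support.card ≤ 120 * (m * m₀) := h6'
          _ ≤ 120 * (120 ^ j * a * b) := by linarith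
          _ = 120 ^ (j + 1) * (a * b) := by ring
          _ = n * (120 ^ (j + 1) * d) := by rw [hab]; ring
      exact le_of_mul_le_mul_left h7 hn0

end Pool.Agent.Helper60.AK.DESC
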